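import Pool.Agent.E8helper30.RG.Stm3

/-!
# Project RG3 (helper30), MP_df8ddc_co: the Moore bound from core + growth
-/

set_option autoImplicit false

namespace Pool.Agent.E8helper7.RG

open Pool.Agent.E8helper30.RG

theorem t_MOORE (hC : S_CORE) (hG : S_GROW) : S_MOORE := by
  intro n q ρ G hq hn hlt he
  by_contra hcon
  push Not at hcon
  obtain ⟨S, hS, hdeg⟩ := hC n q G hn he
  have h := hG n q ρ G S hS (fun u hu => le_trans (by omega) (hdeg u hu))
    (fun v w hw => hcon v w hw)
  omega

end Pool.Agent.E8helper7.RG
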